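import Pool.Agent.Lib_helper45.HSRF.RP
import Pool.Agent.Lib_helper45.HSF.E2
import Pool.Agent.Lib_helper45.HSF.KA
import Pool.Agent.Lib_helper84.HSGF.HH
import Pool.Agent.Lib_helper84.HSGF.GH

/-!
# Hilbert-Selberg: the theorem (Part I + Part II + stage 2)
-/

namespace Pool.Agent.HSG

open Complex MeasureTheory Filter Topology UpperHalfPlane NumberField IsDedekindDomain
open scoped nonZeroDivisors MatrixGroups ENNReal

variable (K : Type) [Field K] [NumberField K] [IsTotallyReal K]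

open scoped Classical in
/-- the theorem in the notation of Part I -/
theorem hs_top : ∃ (c C : ℝ) (k₀ : ℕ), 0 < c ∧ 0 < C ∧ ∀ k : ℕ, k₀ ≤ k → Even k →
    (SS K k).Finite ∧ c * (k : ℝ) ^ Module.finrank ℚ K ≤ (SS K k).ncard ∧
    ∀ α β h H : ℝ, -(c * √k) ≤ α → β ≤ c * √k → 0 < H → H ≤ 1 → H ≤ h → h ≤ β - α →
      ({lam : Pr K → ℝ | lam ∈ SS K k ∧
        ¬ HS.Good (HS.PK K) k (Real.log (dK K)) lam C α β h H}.ncard : ℝ) ≤
        C * √((β - α) / (h * H * Real.log k)) * (SS K k).ncard := by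
  obtain ⟨c₁, C₁, hax⟩ := HS.PK_ax K
  obtain ⟨CF, EF, k₁, hfam⟩ := hfam_exists (K := K)
  obtain ⟨c₂, C', k₂, hc₂, hC', hp⟩ := HS.part_one (HS.PK K) hax (tot_phK (K := K))
    (Real.log (dK K)) CF EF
  obtain ⟨c, k₃, hc, hcount⟩ := ss_count (K := K)
  have hd : dg K = Module.finrank ℚ K := rfl
  refine ⟨min c₂ c, max C' (C' / c), max (max k₁ k₂) k₃, lt_min hc₂ hc,
    lt_of_lt_of_le hC' (le_max_left _ _), fun k hk he => ?_⟩
  have hk1 : k₁ ≤ k := le_trans (le_trans (le_max_left _ _) (le_max_left _ _)) hk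
  have hk2 : k₂ ≤ k := le_trans (le_trans (le_max_right _ _) (le_max_left _ _)) hk
  have hk3 : k₃ ≤ k := le_trans (le_max_right _ _) hk
  obtain ⟨hfin, hlow⟩ := hcount k hk3 he
  refine ⟨hfin, ?_, fun α β h H ha hb hH hH1 hHh hba => ?_⟩
  · refine le_trans ?_ hlow
    rw [hd]
    exact mul_le_mul_of_nonneg_right (min_le_right _ _) (by positivity)
  have hft : Fintype (SS K k) := hfin.fintype
  obtain ⟨om, hom⟩ := hfam k hk1 he (ι := SS K k) (fun i => i.1) Subtype.val_injective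
    (fun i => i.2)
  have hsk : 0 ≤ √(k : ℝ) := Real.sqrt_nonneg _
  obtain ⟨-, h2⟩ := hp k hk2 he (fun i : SS K k => i.1) om hom
  have h3 := h2 (max C' (C' / c)) α β h H (le_max_left _ _)
    (le_trans (neg_le_neg (mul_le_mul_of_nonneg_right (min_le_left _ _) hsk)) ha)
    (le_trans hb (mul_le_mul_of_nonneg_right (min_le_left _ _) hsk)) hH hH1 hHh hba
  have hset : ({lam : Pr K → ℝ | lam ∈ SS K k ∧ ¬ HS.Good (HS.PK K) k (Real.log (dK K)) lam
      (max C' (C' / c)) α β h H}.ncard : ℝ) ≤ ((Finset.univ.filter fun i : SS K k =>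
        ¬ HS.Good (HS.PK K) k (Real.log (dK K)) i.1 (max C' (C' / c)) α β h H).card : ℝ) := by
    have h4 : {lam : Pr K → ℝ | lam ∈ SS K k ∧ ¬ HS.Good (HS.PK K) k (Real.log (dK K)) lam
        (max C' (C' / c)) α β h H} ⊆ (fun i : SS K k => i.1) '' ((Finset.univ.filter
          fun i : SS K k => ¬ HS.Good (HS.PK K) k (Real.log (dK K)) i.1 (max C' (C' / c))
            α β h H : Finset (SS K k)) : Set (SS K k)) := by
      rintro lam ⟨hl, hb⟩
      exact ⟨⟨lam, hl⟩, by simpa using hb, rfl⟩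
    have h5 := Set.ncard_le_ncard h4 ((Finset.finite_toSet _).image _)
    have h6 := Set.ncard_image_le (f := fun i : SS K k => i.1) (Finset.finite_toSet
      (Finset.univ.filter fun i : SS K k => ¬ HS.Good (HS.PK K) k (Real.log (dK K)) i.1
        (max C' (C' / c)) α β h H))
    rw [Set.ncard_coe_finset] at h6
    exact_mod_cast le_trans h5 h6
  have hkd : (k : ℝ) ^ (HS.PK K).d ≤ (SS K k).ncard / c := by
    rw [le_div_iff₀ hc, mul_comm]
    exact hlow
  have hq : 0 ≤ √((β - α) / (h * H * Real.log k)) := Real.sqrt_nonneg _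
  calc _ ≤ _ := hset
    _ ≤ C' * √((β - α) / (h * H * Real.log k)) * (k : ℝ) ^ (HS.PK K).d := h3
    _ ≤ C' * √((β - α) / (h * H * Real.log k)) * ((SS K k).ncard / c) :=
        mul_le_mul_of_nonneg_left hkd (mul_nonneg hC'.le hq)
    _ = (C' / c) * √((β - α) / (h * H * Real.log k)) * (SS K k).ncard := by ring
    _ ≤ _ := by
        refine mul_le_mul_of_nonneg_right ?_ (Nat.cast_nonneg _)
        exact mul_le_mul_of_nonneg_right (le_max_right _ _) hq

end Pool.Agent.HSG
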